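import Pool.Agent.Q268.RB.Stmts

namespace Pool.Agent.Q296.RB

open Finset Pool.Agent.Q268.RB


theorem tri (k : ℕ) : ∀ x : ℕ, 2 * ∑ i ∈ range k, (x - i) ≤ x * (x + 1) := by
  induction k with
  | zero => intro x; simp
  | succ k ih =>
    intro x
    rw [Finset.sum_range_succ']
    rcases x with _ | x
    · simp
    · have h := ih x
      have e : ∀ i ∈ range k, (x + 1 - (i + 1)) = x - i := by intro i _; omega
      rw [Finset.sum_congr rfl e]
      simp only [Nat.sub_zero]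
      nlinarith

theorem tri2 (α β x : ℕ) : 2 * ∑ y ∈ Ioc α β, (x + y - β) ≤ x * (x + 1) := by
  have h1 : ∑ y ∈ Ioc α β, (x + y - β) ≤ ∑ y ∈ range (β + 1), (x + y - β) := by
    apply Finset.sum_le_sum_of_subset
    intro y hy
    simp only [mem_Ioc] at hy
    simp only [mem_range]; omega
  have h2 : ∑ y ∈ range (β + 1), (x + y - β) = ∑ i ∈ range (β + 1), (x - i) := by
    rw [← Finset.sum_range_reflect]
    apply Finset.sum_congr rfl
    intro i hi
    simp only [mem_range] at hi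
    omega
  have h3 := tri (β + 1) x
  omega

theorem cube (α : ℕ) : 3 * ∑ x ∈ Icc 1 α, x * (x + 1) = α * (α + 1) * (α + 2) := by
  induction α with
  | zero => simp
  | succ k ih =>
    rw [Finset.sum_Icc_succ_top (by omega), mul_add, ih]
    ring

/-- the interval colouring -/
def chi (α β : ℕ) (t : ℕ) : Fin 3 := if t ≤ α then 0 else if t ≤ β then 1 else 2

theorem count (n α β : ℕ) (h1 : α ≤ β) (h2 : β ≤ n) :
    6 * (α * (β - α) * (n - β)) ≤ 6 * rb n (chi α β) + α * (α + 1) * (α + 2) := by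
  set P : Finset (ℕ × ℕ × ℕ) := Icc 1 α ×ˢ Ioc α β ×ˢ Ioc β n with hP
  have hcard : P.card = α * (β - α) * (n - β) := by
    rw [hP]
    simp only [Finset.card_product, Nat.card_Icc, Nat.card_Ioc]
    rw [Nat.add_sub_cancel]
    ring
  have hsplit : (P.filter (fun t => t.1 + t.2.1 < t.2.2)).card
      + (P.filter (fun t => ¬ (t.1 + t.2.1 < t.2.2))).card = P.card :=
    Finset.card_filter_add_card_filter_not _
  have hgood : (P.filter (fun t => t.1 + t.2.1 < t.2.2)).card ≤ rb n (chi α β) := by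
    unfold rb
    apply Finset.card_le_card
    intro w ht
    obtain ⟨x, y, z⟩ := w
    rw [hP] at ht
    simp only [mem_filter, mem_product, mem_Icc, mem_Ioc] at ht
    rw [mem_filter]
    simp only [mem_product, mem_Icc, chi]
    obtain ⟨⟨⟨hx1, hx2⟩, ⟨hy1, hy2⟩, hz1, hz2⟩, h⟩ := ht
    refine ⟨⟨⟨hx1, by omega⟩, ⟨by omega, by omega⟩, by omega, hz2⟩, by omega, h, ?_, ?_, ?_⟩
    · rw [if_pos hx2, if_neg (by omega), if_pos hy2]; decide
    · rw [if_pos hx2, if_neg (by omega), if_neg (by omega)]; decide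
    · rw [if_neg (by omega), if_pos hy2, if_neg (by omega), if_neg (by omega)]; decide
  have hbad : (P.filter (fun t => ¬ (t.1 + t.2.1 < t.2.2))).card
      ≤ ∑ x ∈ Icc 1 α, ∑ y ∈ Ioc α β, (x + y - β) := by
    rw [Finset.card_filter, hP, Finset.sum_product]
    apply Finset.sum_le_sum
    intro x _
    rw [Finset.sum_product]
    apply Finset.sum_le_sum
    intro y _
    rw [← Finset.card_filter]
    have : ((Ioc β n).filter (fun z => ¬ (x + y < z))) ⊆ Ioc β (x + y) := by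
      intro z hz
      simp only [mem_filter, mem_Ioc] at hz
      simp only [mem_Ioc]; omega
    calc ((Ioc β n).filter (fun z => ¬ (x + y < z))).card ≤ (Ioc β (x + y)).card :=
          Finset.card_le_card this
      _ = x + y - β := by rw [Nat.card_Ioc]
  have hsum : 6 * ∑ x ∈ Icc 1 α, ∑ y ∈ Ioc α β, (x + y - β) ≤ α * (α + 1) * (α + 2) := by
    rw [← cube α]
    have : 2 * ∑ x ∈ Icc 1 α, ∑ y ∈ Ioc α β, (x + y - β) ≤ ∑ x ∈ Icc 1 α, x * (x + 1) := by
      rw [Finset.mul_sum]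
      exact Finset.sum_le_sum (fun x _ => tri2 α β x)
    omega
  rw [← hcard]
  omega

/-- The conjectured constant. -/
noncomputable def cst : ℝ := (3 * Real.sqrt 3 - 5) / 6

theorem lower (n : ℕ) : ∃ χ : ℕ → Fin 3,
    cst * (n : ℝ) ^ 3 - 4 * (n : ℝ) ^ 2 ≤ (rb n χ : ℝ) := by
  have s0 : (0:ℝ) ≤ Real.sqrt 3 := Real.sqrt_nonneg 3
  have s2 : Real.sqrt 3 * Real.sqrt 3 = 3 := Real.mul_self_sqrt (by norm_num)
  set s := Real.sqrt 3 with hs
  have sl : (1.732:ℝ) < s := by
    rw [hs]; apply Real.lt_sqrt_of_sq_lt; norm_num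
  have su : s < (1.7321:ℝ) := by
    rw [hs, Real.sqrt_lt' (by norm_num)]; norm_num
  have hn0 : (0:ℝ) ≤ n := Nat.cast_nonneg n
  set N : ℝ := (n : ℝ) with hN
  set a : ℝ := 2 - s with ha
  set b : ℝ := (s - 1) / 2 with hb
  have ha0 : 0 < a := by rw [ha]; linarith
  have hb0 : 0 < b := by rw [hb]; linarith
  have ha1 : a < 0.2681 := by rw [ha]; linarith
  have ha2 : 0.2678 < a := by rw [ha]; linarith
  have hb1 : b < 0.3661 := by rw [hb]; linarith
  have hb2 : 0.3659 < b := by rw [hb]; linarith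
  set α : ℕ := ⌊a * N⌋₊ with hα
  set β : ℕ := ⌊(a + b) * N⌋₊ with hβ
  have hα1 : (α : ℝ) ≤ a * N := Nat.floor_le (by positivity)
  have hα2 : a * N < (α : ℝ) + 1 := Nat.lt_floor_add_one _
  have hβ1 : (β : ℝ) ≤ (a + b) * N := Nat.floor_le (by positivity)
  have hβ2 : (a + b) * N < (β : ℝ) + 1 := Nat.lt_floor_add_one _
  have hαβ : α ≤ β := by
    rw [hα, hβ]; apply Nat.floor_le_floor
    nlinarith
  have hβn : β ≤ n := by
    have : (β : ℝ) ≤ (n : ℝ) := by
      refine hβ1.trans ?_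
      rw [← hN]; nlinarith
    exact_mod_cast this
  refine ⟨chi α β, ?_⟩
  have hc := count n α β hαβ hβn
  have hcR : 6 * ((α : ℝ) * ((β : ℝ) - α) * (N - β)) ≤
      6 * (rb n (chi α β) : ℝ) + (α : ℝ) * (α + 1) * (α + 2) := by
    have := (Nat.cast_le (α := ℝ)).2 hc
    push_cast [Nat.cast_sub hαβ, Nat.cast_sub hβn] at this
    exact this
  have hcst : cst = a * b * b - a ^ 3 / 6 := by
    rw [cst, ha, hb]
    have s3 : s ^ 3 = 3 * s := by
      calc s ^ 3 = (s * s) * s := by ring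
        _ = 3 * s := by rw [s2]
    have s22 : s ^ 2 = 3 := by rw [pow_two]; exact s2
    rw [← hs]
    ring_nf
    rw [s3]
    try rw [s22]
    ring
  have hab : 1 - (a + b) = b := by rw [ha, hb]; ring
  have hα0 : (0:ℝ) ≤ α := Nat.cast_nonneg α
  -- small n
  by_cases hsmall : n < 4
  · have h1 : N < 4 := by rw [hN]; exact_mod_cast hsmall
    have h2 : cst < 1 := by rw [cst, ← hs]; linarith
    have h3 : cst * N ^ 3 - 4 * N ^ 2 ≤ 0 := by
      have : cst * N ^ 3 ≤ 1 * N ^ 3 := by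
        apply mul_le_mul_of_nonneg_right h2.le (by positivity)
      nlinarith [sq_nonneg N]
    exact h3.trans (Nat.cast_nonneg _)
  · have h4 : (4:ℝ) ≤ N := by rw [hN]; exact_mod_cast (not_lt.1 hsmall)
    have p1 : 0 ≤ a * N - 1 := by nlinarith
    have p2 : 0 ≤ b * N - 1 := by nlinarith
    have q1 : a * N - 1 ≤ α := by linarith
    have q2 : b * N - 1 ≤ (β : ℝ) - α := by nlinarith
    have q3 : b * N ≤ N - β := by
      have : (a + b) * N = N - b * N := by rw [← hab]; ring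
      linarith
    have m1 : (a * N - 1) * (b * N - 1) ≤ (α : ℝ) * ((β : ℝ) - α) :=
      mul_le_mul q1 q2 p2 hα0
    have m2 : (a * N - 1) * (b * N - 1) * (b * N) ≤ (α : ℝ) * ((β : ℝ) - α) * (N - β) :=
      mul_le_mul m1 q3 (by positivity) (mul_nonneg hα0 (p2.trans q2))
    have m3 : (α : ℝ) * (α + 1) * (α + 2) ≤ (a * N) * (a * N + 1) * (a * N + 2) := by
      gcongr
    have e1 : (a * N - 1) * (b * N - 1) * (b * N) =
        a * b * b * N ^ 3 - (a * b + b * b) * N ^ 2 + b * N := by ring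
    have e2 : (a * N) * (a * N + 1) * (a * N + 2) =
        a ^ 3 * N ^ 3 + 3 * a ^ 2 * N ^ 2 + 2 * a * N := by ring
    have hb1' : b ≤ 1 := by linarith
    have ha1' : a ≤ 1 := by linarith
    have b0 : a * b ≤ a * 1 := mul_le_mul_of_nonneg_left hb1' ha0.le
    have b0' : b * b ≤ b * 1 := mul_le_mul_of_nonneg_left hb1' hb0.le
    have b1 : a * b + b * b ≤ 1 := by linarith
    have b2 : a ^ 2 ≤ 1 := pow_le_one₀ ha0.le ha1'
    have N2 : 0 ≤ N ^ 2 := by positivity
    have NN : N ≤ N ^ 2 := by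
      have : 1 * N ≤ N * N := mul_le_mul_of_nonneg_right (by linarith) hn0
      rw [pow_two]; linarith
    have c1 : (a * b + b * b) * N ^ 2 ≤ 1 * N ^ 2 := mul_le_mul_of_nonneg_right b1 N2
    have c2 : a ^ 2 * N ^ 2 ≤ 1 * N ^ 2 := mul_le_mul_of_nonneg_right b2 N2
    have c3 : a * N ≤ N ^ 2 := by
      have : a * N ≤ 1 * N := mul_le_mul_of_nonneg_right ha1' hn0
      linarith
    have c4 : 0 ≤ b * N := by positivity
    rw [hcst]
    have f1 : (a * b * b - a ^ 3 / 6) * N ^ 3 - 4 * N ^ 2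
        = a * b * b * N ^ 3 - (a ^ 3 * N ^ 3) / 6 - 4 * N ^ 2 := by ring
    rw [f1]
    have g1 := hcR
    have g2 := m2
    have g3 := m3
    rw [e1] at g2
    rw [e2] at g3
    have g4 : 3 * a ^ 2 * N ^ 2 = 3 * (a ^ 2 * N ^ 2) := by ring
    have g5 : 2 * a * N = 2 * (a * N) := by ring
    rw [g4, g5] at g3
    generalize (α : ℝ) * ((β : ℝ) - α) * (N - β) = X at *
    generalize (α : ℝ) * (α + 1) * (α + 2) = Y at *
    generalize a * b * b * N ^ 3 = Z at *
    generalize a ^ 3 * N ^ 3 = U at *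
    generalize (a * b + b * b) * N ^ 2 = V at *
    generalize a ^ 2 * N ^ 2 = W at *
    linarith

theorem main : TaskLb := by
  intro n
  obtain ⟨χ, h⟩ := lower n
  refine ⟨χ, ?_⟩
  rw [cst] at h
  nlinarith [sq_nonneg (n : ℝ)]

end Pool.Agent.Q296.RB
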